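import Pool.Agent.T9h32.OR.Spec

/-!
# Piece E of the project OR: a common eigenvector
-/

set_option autoImplicit false

namespace Pool.Agent.T9h96.OR

open Finset Matrix
open Pool.Agent.T9h32.OR

/-- two vectors in the kernel of a nonzero matrix are proportional -/
theorem prop_of_ker {K : Type} [Field K] (M : Matrix (Fin 2) (Fin 2) K) (hM : M ≠ 0)
    (w y : Fin 2 → K) (hw0 : w ≠ 0) (hw : M *ᵥ w = 0) (hy : M *ᵥ y = 0) :
    ∃ c : K, y = c • w := by
  have a0 := congrFun hw 0
  have a1 := congrFun hw 1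
  have b0 := congrFun hy 0
  have b1 := congrFun hy 1
  simp only [Matrix.mulVec, dotProduct, Fin.sum_univ_two, Pi.zero_apply] at a0 a1 b0 b1
  have hdet : w 0 * y 1 - w 1 * y 0 = 0 := by
    by_contra hd
    apply hM
    have p00 : M 0 0 = 0 := by
      have : (w 0 * y 1 - w 1 * y 0) * M 0 0 = 0 := by linear_combination y 1 * a0 - w 1 * b0
      exact (mul_eq_zero.1 this).resolve_left hd
    have p01 : M 0 1 = 0 := by
      have : (w 0 * y 1 - w 1 * y 0) * M 0 1 = 0 := by linear_combination w 0 * b0 - y 0 * a0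
      exact (mul_eq_zero.1 this).resolve_left hd
    have p10 : M 1 0 = 0 := by
      have : (w 0 * y 1 - w 1 * y 0) * M 1 0 = 0 := by linear_combination y 1 * a1 - w 1 * b1
      exact (mul_eq_zero.1 this).resolve_left hd
    have p11 : M 1 1 = 0 := by
      have : (w 0 * y 1 - w 1 * y 0) * M 1 1 = 0 := by linear_combination w 0 * b1 - y 0 * a1
      exact (mul_eq_zero.1 this).resolve_left hd
    ext i j
    fin_cases i <;> fin_cases j
    · exact p00
    · exact p01
    · exact p10
    · exact p11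
  by_cases h0 : w 0 = 0
  · have h1 : w 1 ≠ 0 := by
      intro h1
      apply hw0
      ext i
      fin_cases i
      · exact h0
      · exact h1
    refine ⟨y 1 / w 1, ?_⟩
    ext i
    fin_cases i
    · show y 0 = y 1 / w 1 * w 0
      rw [h0, zero_mul, zero_sub, neg_eq_zero] at hdet
      rw [h0, mul_zero]
      exact (mul_eq_zero.1 hdet).resolve_left h1
    · show y 1 = y 1 / w 1 * w 1
      rw [div_mul_cancel₀ _ h1]
  · refine ⟨y 0 / w 0, ?_⟩
    ext i
    fin_cases i
    · show y 0 = y 0 / w 0 * w 0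
      rw [div_mul_cancel₀ _ h0]
    · show y 1 = y 0 / w 0 * w 1
      field_simp
      linear_combination hdet

/-- **Piece E.** -/
theorem eig : StEig := by
  intro K _ ι _ _ lam u b ε h2 hu C T htr hsq hrel hv hT
  by_cases h0 : ∀ i, T i = 0
  · obtain ⟨v, hv0, hCv, _⟩ := hv
    exact ⟨v, hv0, hCv, fun i => ⟨0, by rw [h0 i, Matrix.zero_mulVec, zero_smul]⟩⟩
  · push Not at h0
    obtain ⟨a, ha⟩ := h0
    obtain ⟨x, hx⟩ : ∃ x : Fin 2 → K, T a *ᵥ x ≠ 0 := by
      by_contra hcon
      push Not at hcon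
      apply ha
      ext i j
      have h := congrFun (hcon (Pi.single j 1)) i
      rw [Matrix.mulVec_single_one] at h
      exact h
    have hcomm : C * T a = T a * C + ε • T a := by
      have h := hrel a
      have e1 : (∑ j, lam a j • T j) * T a = 0 := by
        rw [Finset.sum_mul]
        refine Finset.sum_eq_zero fun j _ => ?_
        rw [Matrix.smul_mul, hT, smul_zero]
      have e2 : T a * (∑ j, lam a j • T j) = 0 := by
        rw [Finset.mul_sum]
        refine Finset.sum_eq_zero fun j _ => ?_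
        rw [Matrix.mul_smul, hT, smul_zero]
      rw [add_mul, mul_add, e1, e2, add_zero, add_zero, Matrix.smul_mul, Matrix.mul_smul,
        ← smul_sub, mul_comm ε, mul_smul] at h
      have h' : C * T a - T a * C = ε • T a := smul_right_injective _ (hu a) h
      rw [← h']
      abel
    have hker : T a *ᵥ (C *ᵥ (T a *ᵥ x)) = 0 := by
      rw [Matrix.mulVec_mulVec, Matrix.mulVec_mulVec, Matrix.mul_assoc, hcomm, Matrix.mul_add,
        ← Matrix.mul_assoc, Matrix.mul_smul, hsq a, Matrix.zero_mul, smul_zero, add_zero,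
        Matrix.zero_mulVec]
    have hker' : T a *ᵥ (T a *ᵥ x) = 0 := by
      rw [Matrix.mulVec_mulVec, hsq a, Matrix.zero_mulVec]
    obtain ⟨c, hc⟩ := prop_of_ker (T a) ha (T a *ᵥ x) (C *ᵥ (T a *ᵥ x)) hx hker' hker
    refine ⟨T a *ᵥ x, hx, ⟨c, hc⟩, fun i => ⟨0, ?_⟩⟩
    rw [Matrix.mulVec_mulVec, hT, Matrix.zero_mulVec, zero_smul]

end Pool.Agent.T9h96.OR
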